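import Pool.Agent.H106R3.SM.Final

/-!
# One-pass streaming algorithms for submodular matching: below the factor 2 only with quadratic space

For every `α < 2` there are `δ > 0` and `N` such that for all `n ≥ N` no randomised one-pass
algorithm with at most `δ n ^ 2` bits of memory finds, for every bipartite graph on `n` vertices,
every order of the edges and every monotone submodular function `f` with `f ∅ = 0`, with
probability at least `2 / 3` a matching `M` with `max f ≤ α * f M`.  (As `n * (log n) ^ c` is below
`δ n ^ 2` for large `n`, this includes space `n polylog n`.)  The model is in
`Pool.Agent.H106R3.SM.Defs`.

Proof.  There are `K` phases and a cyclic group `G` of order about `n / (3 K)`. Phase `i` has the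
centres `(i, j)` and the leaves `(i, b, 0)`, `(i, b, 1)`, where `j, b` are in `G`; the edges of phase
`i` are, for all `j, b`, the edge from `(i, j)` to `(i, b, x)`, `x = x_i (j, b)` a random bit.  There is
a random secret shift `l_i`; the edge with `b = l_i + j` is the special edge of `(i, j)`.  The
function is the sum over `j` of functions of the same form: there are `K` zones of size `1 / K`; the
special edge of `(i, j)` covers the zone `i`, and an ordinary edge at `(i, j)` covers the fraction
`1 / (K - i)` of each of the zones `i, ..., K - 1`, all these independently of each other.  On the
edges of the phases up to `i` this function does not depend on `l_i`, so special and ordinary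
edges cannot be told apart before the next phase.  The special edges form a matching of value
`|G|`, and a matching of ordinary edges has value at most `|G| (K + 1) / (2 K)`.  A matching with many
special edges of phase `i` shows that many bits `x_i (j, l_i + j)` are known; as the sets
`{(j, l + j)}` are disjoint for different `l`, a union bound over the memory contents and the sets of
values of `l` shows that this is rarely possible.
-/

set_option autoImplicit false

namespace Pool.Agent.Results.MP_eef58c_lc.QuadraticSpace

open Pool.Agent.H106R3.SM

theorem result (α : ℝ) (hα : α < 2) : ∃ δ : ℝ, 0 < δ ∧ ∃ N : ℕ, ∀ n ≥ N, ∀ s : ℕ,
    (s : ℝ) ≤ δ * (n : ℝ) ^ 2 → ¬ Approximable n s α :=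
  main α hα

end Pool.Agent.Results.MP_eef58c_lc.QuadraticSpace
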